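import Pool.Agent.H58.BR.Main

/-!
# Integral means of `|f'| ^ (-2)` for basins of infinity of non-autonomous unicritical iterations

For degrees `d j ≥ 2` and parameters `c j` such that all critical orbits are bounded, and a
conformal map `f` of the unit disc onto a Moebius image of the basin of infinity of the
composition sequence `z ↦ z ^ d 0 + c 0`, `z ↦ z ^ d 1 + c 1`, …, the mean of `|f'| ^ (-2)` on the
circle of radius `r` is at most a constant times `1 / (1 - r)`. The constant is absolute apart from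
the normalisation of `f` at the preimage of the point at infinity.
-/

set_option autoImplicit false

namespace Pool.Agent.Results.MP_f801da_an.NonautonomousUnicritical

open Metric Set Pool.Agent.H58.BR

theorem result :
    ∃ C : ℝ, ∀ (d : ℕ → ℕ) (c : ℕ → ℂ), (∀ j, 2 ≤ d j) → (∀ j, (0 : ℂ) ∈ K d c j) →
      ∀ A B p : ℂ, B ≠ 0 → p ∈ K d c 0 → ∀ f : ℂ → ℂ, DifferentiableOn ℂ f (ball 0 1) →
      InjOn f (ball 0 1) → f '' ball 0 1 = basinImage d c A B p → ∀ a ∈ ball (0 : ℂ) 1, f a = A →
      ∀ r : ℝ, 0 < r → r < 1 →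
        (2 * Real.pi)⁻¹ * ∫ θ in (0 : ℝ)..2 * Real.pi, (‖deriv f (circleMap 0 r θ)‖ ^ 2)⁻¹ ≤
          C / ((1 - ‖a‖) ^ 6 * ‖deriv f a‖ ^ 2 * (1 - r)) :=
  main

end Pool.Agent.Results.MP_f801da_an.NonautonomousUnicritical
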