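import Pool.Agent.H5.QD.Fin

/-!
# The sharp bound of the integral means of `|f'|^{-2}` for maps in a holomorphic family

If `F l`, `|l| < 1`, are univalent in the unit disc, depend holomorphically on `l`, and `F 0` is
the identity, then `I_{-2}(r, F_l') ≤ C (1-r)^{-1/2} / |F_l'(0)|` for all `|l| ≤ 93/100`, with an
absolute constant `C`.
-/

set_option autoImplicit false

namespace Pool.Agent.Results.MP_f801da_an.QuasidiskBound

open Metric Set MeasureTheory
open scoped Real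

/-- **The inequality of Q1 in holomorphic families.** There is an absolute constant `C` such that
for every function `F l z` of two variables in the unit disc, analytic and injective in `z` for
every `l`, analytic in `l` for every `z`, with `F 0 z = z`, for all `|l| ≤ 93/100` and all
`0 < r < 1`:
`((1/2π) ∫_0^{2π} |F_l'(r e^{iθ})|^{-2} dθ)^{1/2} ≤ C |F_l'(0)|^{-1} (1-r)^{-1/2}`. -/
theorem result : ∃ C : ℝ, ∀ F : ℂ → ℂ → ℂ,
    (∀ l ∈ ball (0 : ℂ) 1, DifferentiableOn ℂ (F l) (ball 0 1) ∧ InjOn (F l) (ball 0 1)) →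
    (∀ z ∈ ball (0 : ℂ) 1, DifferentiableOn ℂ (fun l => F l z) (ball 0 1)) →
    (∀ z ∈ ball (0 : ℂ) 1, F 0 z = z) →
    ∀ l : ℂ, ‖l‖ ≤ 93 / 100 → ∀ r : ℝ, 0 < r → r < 1 →
      ((1 / (2 * π)) * ∫ θ in (0 : ℝ)..(2 * π),
        (‖deriv (F l) ((r : ℂ) * Complex.exp ((θ : ℂ) * Complex.I))‖ ^ 2)⁻¹) ^ ((1 : ℝ) / 2) ≤
      C * ‖deriv (F l) 0‖⁻¹ * (1 - r) ^ (-((1 : ℝ) / 2)) := by
  obtain ⟨C, hC⟩ := Pool.Agent.H5.QD.main
  exact ⟨C, fun F h1 h2 h3 l hl r hr hr1 => (hC F h1 h2 h3 l r hr hr1).1 hl⟩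

end Pool.Agent.Results.MP_f801da_an.QuasidiskBound
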