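import Pool.Agent.H58.BJ.Asm
import Pool.Agent.H5.HT.D7.Fin

/-!
# A universal bound of the integral means of `|f'|^{-2}` for univalent functions

For every `f` analytic and univalent in the unit disc,
`I_{-2}(r, f') ≤ C (1-r)^{-129/250} / |f'(0)|` with an absolute constant `C`.
-/

set_option autoImplicit false

namespace Pool.Agent.Results.MP_f801da_an.UniversalMeanBound

open Metric Set MeasureTheory
open scoped Real

/-- **Universal bound.** There is an absolute constant `C` such that for every `f` analytic and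
injective in the unit disc and all `0 < r < 1`,
`((1/2π) ∫_0^{2π} |f'(r e^{iθ})|^{-2} dθ)^{1/2} ≤ C |f'(0)|^{-1} (1-r)^{-129/250}`. -/
theorem result : ∃ C : ℝ, ∀ f : ℂ → ℂ, DifferentiableOn ℂ f (ball 0 1) → InjOn f (ball 0 1) →
    ∀ r : ℝ, 0 < r → r < 1 →
      ((1 / (2 * π)) * ∫ θ in (0 : ℝ)..(2 * π),
        (‖deriv f ((r : ℂ) * Complex.exp ((θ : ℂ) * Complex.I))‖ ^ 2)⁻¹) ^ ((1 : ℝ) / 2) ≤
      C * ‖deriv f 0‖⁻¹ * (1 - r) ^ (-((129 : ℝ) / 250)) := by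
  obtain ⟨μ, κ, hκ, hcert⟩ := Pool.Agent.H5.HT.D7.cert
  have hβ : (((129 : ℕ) : ℝ) / ((125 : ℕ) : ℝ)) = 129 / 125 := by norm_num
  rw [hβ] at hcert
  have hcert' : Pool.Agent.H58.BJ.CertOK (129 / 125) μ κ := hcert
  obtain ⟨C, hC0, hC⟩ := Pool.Agent.H58.BJ.all_bound (by norm_num) hκ hcert'
  refine ⟨Real.sqrt (C / (2 * π)), ?_⟩
  intro f hf hi r hr hr1
  have h1 := hC f ⟨hf, hi⟩ r hr hr1
  have e1 : (∫ θ in (0 : ℝ)..(2 * π), Pool.Agent.H58.BJ.qf f (circleMap 0 r θ)) =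
      ∫ θ in (0 : ℝ)..(2 * π),
        (‖deriv f ((r : ℂ) * Complex.exp ((θ : ℂ) * Complex.I))‖ ^ 2)⁻¹ := by
    congr 1
    funext θ
    simp [Pool.Agent.H58.BJ.qf, circleMap]
  rw [e1] at h1
  set A : ℝ := ∫ θ in (0 : ℝ)..(2 * π),
        (‖deriv f ((r : ℂ) * Complex.exp ((θ : ℂ) * Complex.I))‖ ^ 2)⁻¹ with hA
  have hA0 : 0 ≤ A := by
    rw [hA]
    apply intervalIntegral.integral_nonneg (by positivity)
    intro θ _
    positivity
  have h1r : 0 < 1 - r := by linarith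
  have hp : 0 < 2 * π := by positivity
  have h2 : 1 / (2 * π) * A ≤ (Real.sqrt (C / (2 * π)) * ‖deriv f 0‖⁻¹ *
      (1 - r) ^ (-((129 : ℝ) / 250))) ^ 2 := by
    rw [mul_pow, mul_pow, Real.sq_sqrt (by positivity), ← Real.rpow_natCast ((1 - r) ^ _) 2,
      ← Real.rpow_mul h1r.le, inv_pow]
    have e2 : -((129 : ℝ) / 250) * ((2 : ℕ) : ℝ) = -(129 / 125) := by norm_num
    rw [e2, one_div, inv_mul_le_iff₀ hp]
    calc A ≤ C * (‖deriv f 0‖ ^ 2)⁻¹ * (1 - r) ^ (-((129 : ℝ) / 125)) := h1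
      _ = 2 * π * (C / (2 * π) * (‖deriv f 0‖ ^ 2)⁻¹ * (1 - r) ^ (-((129 : ℝ) / 125))) := by
        field_simp
  rw [← Real.sqrt_eq_rpow]
  exact Real.sqrt_le_iff.2 ⟨by positivity, h2⟩

end Pool.Agent.Results.MP_f801da_an.UniversalMeanBound
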